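import Mathlib

/-!
# Project SC: elementary inequalities for the assembly
-/

set_option autoImplicit false

namespace Pool.SC.MAIr

open Real

/-- The conclusion from the inequality of Falik and Samorodnitsky. -/
theorem fs_bound {x A γ V I : ℝ} (hx : 2 ≤ x) (hA : 0 < A) (hγ : 0 < γ) (hV : 0 ≤ V)
    (hI : 0 < I) (hI2 : I ≤ A * x ^ (2 - γ)) (h : V * log (V / I) ≤ 2 * (A * x ^ 2)) :
    V ≤ 4 * A / γ * (x ^ 2 / log x) := by
  have hx0 : 0 < x := by linarith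
  have hl : 0 < log x := log_pos (by linarith)
  have h1 : x ^ (2 - γ / 2) * x ^ (γ / 2) = x ^ 2 := by
    rw [← rpow_add hx0, show (2 - γ / 2 + γ / 2 : ℝ) = ((2 : ℕ) : ℝ) by push_cast; ring,
      rpow_natCast]
  have hlog : log x ≤ x ^ (γ / 2) / (γ / 2) := log_le_rpow_div hx0.le (by linarith)
  rcases le_or_gt V (A * x ^ (2 - γ / 2)) with h2 | h2
  · refine h2.trans ?_
    rw [div_mul_div_comm, le_div_iff₀ (mul_pos hγ hl)]
    have h3 : γ * log x ≤ 2 * x ^ (γ / 2) := by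
      have := mul_le_mul_of_nonneg_left hlog hγ.le
      have h4 : γ * (x ^ (γ / 2) / (γ / 2)) = 2 * x ^ (γ / 2) := by
        field_simp
      linarith
    have h5 : 0 < A * x ^ (2 - γ / 2) := mul_pos hA (rpow_pos_of_pos hx0 _)
    calc A * x ^ (2 - γ / 2) * (γ * log x) ≤ A * x ^ (2 - γ / 2) * (2 * x ^ (γ / 2)) :=
          mul_le_mul_of_nonneg_left h3 h5.le
      _ = 2 * A * (x ^ (2 - γ / 2) * x ^ (γ / 2)) := by ring
      _ = 2 * A * x ^ 2 := by rw [h1]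
      _ ≤ 4 * A * x ^ 2 := by
          have : 0 ≤ A * x ^ 2 := by positivity
          linarith
  · have h3 : x ^ (γ / 2) ≤ V / I := by
      rw [le_div_iff₀ hI]
      have h4 : x ^ (γ / 2) * x ^ (2 - γ) = x ^ (2 - γ / 2) := by
        rw [← rpow_add hx0]
        congr 1
        ring
      calc x ^ (γ / 2) * I ≤ x ^ (γ / 2) * (A * x ^ (2 - γ)) :=
            mul_le_mul_of_nonneg_left hI2 (rpow_nonneg hx0.le _)
        _ = A * (x ^ (γ / 2) * x ^ (2 - γ)) := by ring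
        _ = A * x ^ (2 - γ / 2) := by rw [h4]
        _ ≤ V := h2.le
    have h4 : γ / 2 * log x ≤ log (V / I) := by
      rw [← log_rpow hx0]
      exact log_le_log (rpow_pos_of_pos hx0 _) h3
    have h5 : V * (γ / 2 * log x) ≤ 2 * (A * x ^ 2) :=
      (mul_le_mul_of_nonneg_left h4 hV).trans h
    rw [div_mul_div_comm, le_div_iff₀ (mul_pos hγ hl)]
    linarith

/-- The conclusion from the closeness in second moment. -/
theorem cube_bound {x K η q : ℝ} (hx : 2 ≤ x) (hK : 1 ≤ K) (hη : 0 < η) (hq : 0 ≤ q)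
    (h : q ^ 3 ≤ K * x ^ (6 - η)) : q ≤ 3 * K / η * (x ^ 2 / log x) := by
  have hx0 : 0 < x := by linarith
  have hl : 0 < log x := log_pos (by linarith)
  have h1 : (K * x ^ (2 - η / 3)) ^ 3 = K ^ 3 * x ^ (6 - η) := by
    rw [mul_pow, ← rpow_natCast (x ^ (2 - η / 3)) 3, ← rpow_mul hx0.le]
    congr 2
    push_cast
    ring
  have h2 : q ≤ K * x ^ (2 - η / 3) := by
    refine le_of_pow_le_pow_left₀ (n := 3) (by norm_num) (by positivity) ?_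
    rw [h1]
    refine h.trans (mul_le_mul_of_nonneg_right ?_ (rpow_nonneg hx0.le _))
    nlinarith [sq_nonneg (K - 1), sq_nonneg K]
  refine h2.trans ?_
  have hlog : log x ≤ x ^ (η / 3) / (η / 3) := log_le_rpow_div hx0.le (by linarith)
  have h3 : η * log x ≤ 3 * x ^ (η / 3) := by
    have := mul_le_mul_of_nonneg_left hlog hη.le
    have h4 : η * (x ^ (η / 3) / (η / 3)) = 3 * x ^ (η / 3) := by
      field_simp
    linarith
  have h4 : x ^ (2 - η / 3) * x ^ (η / 3) = x ^ 2 := by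
    rw [← rpow_add hx0, show (2 - η / 3 + η / 3 : ℝ) = ((2 : ℕ) : ℝ) by push_cast; ring,
      rpow_natCast]
  rw [div_mul_div_comm, le_div_iff₀ (mul_pos hη hl)]
  calc K * x ^ (2 - η / 3) * (η * log x) ≤ K * x ^ (2 - η / 3) * (3 * x ^ (η / 3)) :=
        mul_le_mul_of_nonneg_left h3 (by positivity)
    _ = 3 * K * (x ^ (2 - η / 3) * x ^ (η / 3)) := by ring
    _ = 3 * K * x ^ 2 := by rw [h4]

theorem one_le_quot {x : ℝ} (hx : 2 ≤ x) : 1 ≤ x ^ 2 / log x := by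
  have hl : 0 < log x := log_pos (by linarith)
  rw [le_div_iff₀ hl, one_mul]
  have := log_le_sub_one_of_pos (show 0 < x by linarith)
  nlinarith

/-- The bound for `Λ`. -/
theorem lam_bound {x H δ : ℝ} (hx : 2 ≤ x) (hH : 1 ≤ H) (hH8 : H ≤ x ^ 8) (hδ : 0 < δ) :
    1 ≤ sqrt (log (2 + 8 * (x + 1) * H)) ∧
      sqrt (log (2 + 8 * (x + 1) * H)) ≤ sqrt (84 / δ) * x ^ (δ / 12) := by
  have hx0 : 0 < x := by linarith
  have h1 : (1 : ℝ) ≤ log (2 + 8 * (x + 1) * H) := by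
    rw [le_log_iff_exp_le (by positivity)]
    have := exp_one_lt_d9
    nlinarith
  have h2 : log (2 + 8 * (x + 1) * H) ≤ 14 * log x := by
    rw [show (14 : ℝ) * log x = log (x ^ 14) by rw [log_pow]; norm_num]
    refine log_le_log (by positivity) ?_
    have h3 : (x + 1) * H ≤ (2 * x) * x ^ 8 :=
      mul_le_mul (by linarith) hH8 (by linarith) (by linarith)
    have h4 : (1 : ℝ) ≤ x ^ 9 := one_le_pow₀ (by linarith)
    have h5 : (32 : ℝ) ≤ x ^ 5 := by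
      calc (32 : ℝ) = 2 ^ 5 := by norm_num
        _ ≤ x ^ 5 := pow_le_pow_left₀ (by norm_num) hx 5
    calc 2 + 8 * (x + 1) * H = 2 + 8 * ((x + 1) * H) := by ring
      _ ≤ 2 * x ^ 9 + 8 * ((2 * x) * x ^ 8) := by linarith
      _ = 18 * x ^ 9 := by ring
      _ ≤ x ^ 5 * x ^ 9 := by nlinarith
      _ = x ^ 14 := by ring
  have h3 : log x ≤ x ^ (δ / 6) / (δ / 6) := log_le_rpow_div hx0.le (by linarith)
  refine ⟨one_le_sqrt.mpr h1, ?_⟩
  have h4 : sqrt (84 / δ) * x ^ (δ / 12) = sqrt (84 / δ * x ^ (δ / 6)) := by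
    rw [sqrt_mul (by positivity), sqrt_eq_rpow (x ^ (δ / 6)), ← rpow_mul hx0.le]
    congr 2
    ring
  rw [h4]
  refine sqrt_le_sqrt ?_
  calc log (2 + 8 * (x + 1) * H) ≤ 14 * (x ^ (δ / 6) / (δ / 6)) := by linarith
    _ = 84 / δ * x ^ (δ / 6) := by
        field_simp
        ring

/-- Closeness in first moment. -/
theorem close_bound {x c ε η δ H z CC Λ K : ℝ} (hx : 2 ≤ x) (hc : 0 < c)
    (h1 : 2 - 5 * ε / 3 ≤ 1 - η) (h2 : 4 / 3 - ε ≤ 1 - η) (h3 : (1 - ε) / 2 ≤ 1 - η)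
    (hδ : 13 * δ / 12 ≤ η / 2) (hH : c * x ^ ε ≤ H) (hz0 : 0 ≤ z) (hz : z ≤ x ^ δ)
    (hCC : 0 ≤ CC) (hK : 0 ≤ K) (hΛ0 : 0 ≤ Λ) (hΛ : Λ ≤ K * x ^ (δ / 12)) :
    8 * z / H * (CC * Λ * ((x + 1) ^ 2 * H ^ (-(2 : ℝ) / 3) + (x + 1) ^ ((4 : ℝ) / 3)
        + sqrt ((x + 1) * H)))
      ≤ (8 * CC * K * (4 * c ^ (-(5 : ℝ) / 3) + 4 * c⁻¹ + sqrt (2 / c))) * x ^ (1 - η / 2) := by
  have hx0 : 0 < x := by linarith
  have hx1 : (1 : ℝ) ≤ x := by linarith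
  have hh : 0 < c * x ^ ε := mul_pos hc (rpow_pos_of_pos hx0 _)
  have hH0 : 0 < H := lt_of_lt_of_le hh hH
  have e1 : (x + 1) ^ 2 * H ^ (-(2 : ℝ) / 3) / H ≤ 4 * c ^ (-(5 : ℝ) / 3) * x ^ (1 - η) := by
    have a1 : H ^ (-(2 : ℝ) / 3) / H = H ^ (-(5 : ℝ) / 3) := by
      rw [← rpow_sub_one hH0.ne']
      congr 1
      ring
    have a2 : H ^ (-(5 : ℝ) / 3) ≤ c ^ (-(5 : ℝ) / 3) * x ^ (-(5 * ε / 3)) := by
      refine (rpow_le_rpow_of_nonpos hh hH (by norm_num)).trans (le_of_eq ?_)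
      rw [mul_rpow hc.le (rpow_nonneg hx0.le _), ← rpow_mul hx0.le]
      congr 2
      ring
    have a3 : (x + 1) ^ 2 ≤ 4 * x ^ 2 := by nlinarith
    calc (x + 1) ^ 2 * H ^ (-(2 : ℝ) / 3) / H = (x + 1) ^ 2 * (H ^ (-(2 : ℝ) / 3) / H) := by ring
      _ = (x + 1) ^ 2 * H ^ (-(5 : ℝ) / 3) := by rw [a1]
      _ ≤ (4 * x ^ 2) * (c ^ (-(5 : ℝ) / 3) * x ^ (-(5 * ε / 3))) :=
          mul_le_mul a3 a2 (rpow_nonneg hH0.le _) (by positivity)
      _ = 4 * c ^ (-(5 : ℝ) / 3) * (x ^ (2 : ℝ) * x ^ (-(5 * ε / 3))) := by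
          rw [show (x : ℝ) ^ (2 : ℝ) = x ^ 2 by
            rw [← rpow_natCast x 2]; norm_num]
          ring
      _ = 4 * c ^ (-(5 : ℝ) / 3) * x ^ (2 - 5 * ε / 3) := by
          rw [← rpow_add hx0]
          congr 2
      _ ≤ 4 * c ^ (-(5 : ℝ) / 3) * x ^ (1 - η) :=
          mul_le_mul_of_nonneg_left (rpow_le_rpow_of_exponent_le hx1 h1)
            (mul_nonneg (by norm_num) (rpow_nonneg hc.le _))
  have e2 : (x + 1) ^ ((4 : ℝ) / 3) / H ≤ 4 * c⁻¹ * x ^ (1 - η) := by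
    have a1 : (x + 1) ^ ((4 : ℝ) / 3) ≤ 4 * x ^ ((4 : ℝ) / 3) := by
      calc (x + 1) ^ ((4 : ℝ) / 3) ≤ (2 * x) ^ ((4 : ℝ) / 3) :=
            rpow_le_rpow (by linarith) (by linarith) (by norm_num)
        _ = 2 ^ ((4 : ℝ) / 3) * x ^ ((4 : ℝ) / 3) := mul_rpow (by norm_num) hx0.le
        _ ≤ 4 * x ^ ((4 : ℝ) / 3) := by
            refine mul_le_mul_of_nonneg_right ?_ (rpow_nonneg hx0.le _)
            calc (2 : ℝ) ^ ((4 : ℝ) / 3) ≤ 2 ^ (2 : ℝ) :=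
                  rpow_le_rpow_of_exponent_le (by norm_num) (by norm_num)
              _ = 4 := by norm_num
    calc (x + 1) ^ ((4 : ℝ) / 3) / H ≤ 4 * x ^ ((4 : ℝ) / 3) / (c * x ^ ε) :=
          div_le_div₀ (by positivity) a1 hh hH
      _ = 4 * c⁻¹ * (x ^ ((4 : ℝ) / 3) / x ^ ε) := by
          rw [mul_div_mul_comm, ← div_eq_mul_inv]
      _ = 4 * c⁻¹ * x ^ ((4 : ℝ) / 3 - ε) := by rw [← rpow_sub hx0]
      _ ≤ 4 * c⁻¹ * x ^ (1 - η) :=
          mul_le_mul_of_nonneg_left (rpow_le_rpow_of_exponent_le hx1 h2)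
            (mul_nonneg (by norm_num) (inv_nonneg.mpr hc.le))
  have e3 : sqrt ((x + 1) * H) / H ≤ sqrt (2 / c) * x ^ (1 - η) := by
    have a1 : sqrt ((x + 1) * H) / H = sqrt ((x + 1) / H) := by
      rw [← sqrt_sq hH0.le, ← sqrt_div (by positivity)]
      congr 1
      rw [sqrt_sq hH0.le]
      field_simp
    have a2 : (x + 1) / H ≤ 2 / c * x ^ (1 - ε) := by
      calc (x + 1) / H ≤ (2 * x) / (c * x ^ ε) :=
            div_le_div₀ (by positivity) (by linarith) hh hH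
        _ = 2 / c * (x / x ^ ε) := by rw [mul_div_mul_comm]
        _ = 2 / c * x ^ (1 - ε) := by rw [rpow_sub hx0, rpow_one]
    rw [a1]
    calc sqrt ((x + 1) / H) ≤ sqrt (2 / c * x ^ (1 - ε)) := sqrt_le_sqrt a2
      _ = sqrt (2 / c) * x ^ ((1 - ε) / 2) := by
          rw [sqrt_mul (by positivity), sqrt_eq_rpow (x ^ (1 - ε)), ← rpow_mul hx0.le]
          congr 2
          ring
      _ ≤ sqrt (2 / c) * x ^ (1 - η) :=
          mul_le_mul_of_nonneg_left (rpow_le_rpow_of_exponent_le hx1 h3) (sqrt_nonneg _)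
  have e4 : ((x + 1) ^ 2 * H ^ (-(2 : ℝ) / 3) + (x + 1) ^ ((4 : ℝ) / 3) + sqrt ((x + 1) * H)) / H
      ≤ (4 * c ^ (-(5 : ℝ) / 3) + 4 * c⁻¹ + sqrt (2 / c)) * x ^ (1 - η) := by
    rw [add_div, add_div]
    linarith
  have e5 : 0 ≤ (4 * c ^ (-(5 : ℝ) / 3) + 4 * c⁻¹ + sqrt (2 / c)) * x ^ (1 - η) := by
    have := rpow_nonneg hc.le (-(5 : ℝ) / 3)
    have := inv_nonneg.mpr hc.le
    have := rpow_nonneg hx0.le (1 - η)
    positivity
  have e6 : z * Λ ≤ K * x ^ (13 * δ / 12) := by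
    calc z * Λ ≤ x ^ δ * (K * x ^ (δ / 12)) := mul_le_mul hz hΛ hΛ0 (rpow_nonneg hx0.le _)
      _ = K * (x ^ δ * x ^ (δ / 12)) := by ring
      _ = K * x ^ (13 * δ / 12) := by
          rw [← rpow_add hx0]
          congr 2
          ring
  have e7 : x ^ (13 * δ / 12) * x ^ (1 - η) ≤ x ^ (1 - η / 2) := by
    rw [← rpow_add hx0]
    exact rpow_le_rpow_of_exponent_le hx1 (by linarith)
  calc 8 * z / H * (CC * Λ * ((x + 1) ^ 2 * H ^ (-(2 : ℝ) / 3) + (x + 1) ^ ((4 : ℝ) / 3)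
        + sqrt ((x + 1) * H)))
      = 8 * CC * (z * Λ) * (((x + 1) ^ 2 * H ^ (-(2 : ℝ) / 3) + (x + 1) ^ ((4 : ℝ) / 3)
        + sqrt ((x + 1) * H)) / H) := by ring
    _ ≤ 8 * CC * (K * x ^ (13 * δ / 12)) *
        ((4 * c ^ (-(5 : ℝ) / 3) + 4 * c⁻¹ + sqrt (2 / c)) * x ^ (1 - η)) := by
        refine mul_le_mul (mul_le_mul_of_nonneg_left e6 (by positivity)) e4 ?_ ?_
        · have := rpow_nonneg hH0.le (-(2 : ℝ) / 3)
          have := rpow_nonneg (show (0 : ℝ) ≤ x + 1 by linarith) ((4 : ℝ) / 3)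
          have := sqrt_nonneg ((x + 1) * H)
          positivity
        · have := rpow_nonneg hx0.le (13 * δ / 12)
          positivity
    _ = 8 * CC * K * (4 * c ^ (-(5 : ℝ) / 3) + 4 * c⁻¹ + sqrt (2 / c)) *
        (x ^ (13 * δ / 12) * x ^ (1 - η)) := by ring
    _ ≤ (8 * CC * K * (4 * c ^ (-(5 : ℝ) / 3) + 4 * c⁻¹ + sqrt (2 / c))) * x ^ (1 - η / 2) := by
        refine mul_le_mul_of_nonneg_left e7 ?_
        have := rpow_nonneg hc.le (-(5 : ℝ) / 3)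
        have := inv_nonneg.mpr hc.le
        positivity

/-- The sum of the squared influences. -/
theorem infl_bound {x δ r M CT Λ K : ℝ} (hx : 2 ≤ x) (hδ : 0 < δ)
    (hr : r ≤ x ^ (δ / 4)) (hr2 : x ^ (δ / 4) / 2 ≤ r) (hM : x ^ δ ≤ M) (hCT : 0 ≤ CT)
    (hK : 0 ≤ K) (hΛ0 : 0 ≤ Λ) (hΛ : Λ ≤ K * x ^ (δ / 12)) :
    (x + 1) ^ 2 * r ^ 2 / M + (x + 1) ^ 2 * (CT * r ^ ((4 : ℝ) / 3) * Λ) / r ^ 2
      ≤ (4 + 8 * CT * K) * x ^ (2 - δ / 12) := by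
  have hx0 : 0 < x := by linarith
  have hx1 : (1 : ℝ) ≤ x := by linarith
  have hy : 0 < x ^ (δ / 4) := rpow_pos_of_pos hx0 _
  have hr0 : 0 < r := lt_of_lt_of_le (by linarith) hr2
  have hxδ : 0 < x ^ δ := rpow_pos_of_pos hx0 _
  have a3 : (x + 1) ^ 2 ≤ 4 * x ^ (2 : ℝ) := by
    rw [show (x : ℝ) ^ (2 : ℝ) = x ^ 2 by rw [← rpow_natCast x 2]; norm_num]
    nlinarith
  have t1 : r ^ 2 / M ≤ x ^ (-(δ / 12)) := by
    calc r ^ 2 / M ≤ (x ^ (δ / 4)) ^ 2 / x ^ δ :=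
          div_le_div₀ (by positivity) (pow_le_pow_left₀ hr0.le hr 2) hxδ hM
      _ = x ^ (-(δ / 2)) := by
          rw [← rpow_natCast (x ^ (δ / 4)) 2, ← rpow_mul hx0.le, ← rpow_sub hx0]
          congr 1
          push_cast
          ring
      _ ≤ x ^ (-(δ / 12)) := rpow_le_rpow_of_exponent_le hx1 (by linarith)
  have t2 : r ^ ((4 : ℝ) / 3) / r ^ 2 ≤ 2 * x ^ (-(δ / 6)) := by
    have b1 : r ^ ((4 : ℝ) / 3) / r ^ 2 = r ^ (-(2 : ℝ) / 3) := by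
      rw [← rpow_natCast r 2, ← rpow_sub hr0]
      congr 1
      norm_num
    rw [b1]
    calc r ^ (-(2 : ℝ) / 3) ≤ (x ^ (δ / 4) / 2) ^ (-(2 : ℝ) / 3) :=
          rpow_le_rpow_of_nonpos (by linarith) hr2 (by norm_num)
      _ = (x ^ (δ / 4)) ^ (-(2 : ℝ) / 3) / 2 ^ (-(2 : ℝ) / 3) :=
          div_rpow hy.le (by norm_num) _
      _ = x ^ (-(δ / 6)) * 2 ^ ((2 : ℝ) / 3) := by
          rw [← rpow_mul hx0.le, div_eq_mul_inv, ← rpow_neg (by norm_num : (0 : ℝ) ≤ 2)]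
          congr 2
          · ring
          · ring
      _ ≤ x ^ (-(δ / 6)) * 2 := by
          refine mul_le_mul_of_nonneg_left ?_ (rpow_nonneg hx0.le _)
          calc (2 : ℝ) ^ ((2 : ℝ) / 3) ≤ 2 ^ (1 : ℝ) :=
                rpow_le_rpow_of_exponent_le (by norm_num) (by norm_num)
            _ = 2 := rpow_one 2
      _ = 2 * x ^ (-(δ / 6)) := mul_comm _ _
  have s1 : (x + 1) ^ 2 * r ^ 2 / M ≤ 4 * x ^ (2 - δ / 12) := by
    calc (x + 1) ^ 2 * r ^ 2 / M = (x + 1) ^ 2 * (r ^ 2 / M) := by ring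
      _ ≤ (4 * x ^ (2 : ℝ)) * x ^ (-(δ / 12)) :=
          mul_le_mul a3 t1 (div_nonneg (by positivity) (by linarith)) (by positivity)
      _ = 4 * (x ^ (2 : ℝ) * x ^ (-(δ / 12))) := by ring
      _ = 4 * x ^ (2 - δ / 12) := by
          rw [← rpow_add hx0]
          congr 2
  have s2 : (x + 1) ^ 2 * (CT * r ^ ((4 : ℝ) / 3) * Λ) / r ^ 2
      ≤ 8 * CT * K * x ^ (2 - δ / 12) := by
    calc (x + 1) ^ 2 * (CT * r ^ ((4 : ℝ) / 3) * Λ) / r ^ 2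
        = (x + 1) ^ 2 * (CT * ((r ^ ((4 : ℝ) / 3) / r ^ 2) * Λ)) := by ring
      _ ≤ (4 * x ^ (2 : ℝ)) * (CT * ((2 * x ^ (-(δ / 6))) * (K * x ^ (δ / 12)))) := by
          refine mul_le_mul a3 ?_ ?_ (by positivity)
          · refine mul_le_mul_of_nonneg_left ?_ hCT
            exact mul_le_mul t2 hΛ hΛ0 (by positivity)
          · have := rpow_nonneg hr0.le ((4 : ℝ) / 3)
            positivity
      _ = 8 * CT * K * (x ^ (2 : ℝ) * (x ^ (-(δ / 6)) * x ^ (δ / 12))) := by ring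
      _ = 8 * CT * K * x ^ (2 - δ / 12) := by
          rw [← rpow_add hx0, ← rpow_add hx0]
          congr 2
          ring
  linarith

end Pool.SC.MAIr
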