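import Pool.Agent.H61.SC.Stmts
import Pool.Agent.H61.SC.Ex
import Pool.Agent.H23.SC.MAIr

/-!
# Project SC: the assembly (MAI)
-/

set_option autoImplicit false

namespace Pool.SC

open Finset

namespace MAIa

section Prob

variable {α : Type} [DecidableEq α] {p : ℝ} {F : Finset α}

/-- If all influences vanish, the variance vanishes. -/
theorem va_nonpos (hES : S_ES) (hp0 : 0 < p) (hp1 : p < 1) (f : Finset α → ℝ)
    (h : ∑ e ∈ F, (ex p F (fun s => |gr e f s|)) ^ 2 ≤ 0) : va p F f ≤ 0 := by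
  refine (hES α p hp0 hp1 F f).trans (le_of_eq ?_)
  refine Finset.sum_eq_zero fun e he => ?_
  have h0 : (ex p F (fun s => |gr e f s|)) ^ 2 = 0 := by
    refine le_antisymm ?_ (sq_nonneg _)
    exact (Finset.single_le_sum (f := fun e => (ex p F (fun s => |gr e f s|)) ^ 2)
      (fun i _ => sq_nonneg _) he).trans h
  have h1 : ex p F (fun s => |gr e f s|) = 0 := pow_eq_zero_iff (two_ne_zero) |>.mp h0
  set L : ℝ := ∑ s ∈ F.powerset, |gr e f s| with hL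
  have hLs : ∀ s ⊆ F, |gr e f s| ≤ L := fun s hs =>
    Finset.single_le_sum (f := fun s => |gr e f s|) (fun i _ => abs_nonneg _)
      (Finset.mem_powerset.mpr hs)
  refine le_antisymm ?_ (ex_nonneg hp0.le hp1.le fun s _ => sq_nonneg _)
  calc ex p F (fun s => gr e f s ^ 2) ≤ ex p F (fun s => L * |gr e f s|) := by
        refine ex_mono hp0.le hp1.le fun s hs => ?_
        rw [← sq_abs, pow_two]
        exact mul_le_mul_of_nonneg_right (hLs s hs) (abs_nonneg _)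
    _ = L * ex p F (fun s => |gr e f s|) := ex_mul_left p F L _
    _ = 0 := by rw [h1, mul_zero]

/-- Variance of a sum. -/
theorem va_split (hp0 : 0 < p) (hp1 : p < 1) (f g : Finset α → ℝ) :
    va p F f ≤ 2 * va p F g + 2 * ex p F (fun s => (f s - g s) ^ 2) := by
  refine (va_le hp0.le hp1.le f (ex p F g)).trans ?_
  have h1 : 2 * va p F g + 2 * ex p F (fun s => (f s - g s) ^ 2) =
      ex p F (fun s => 2 * (g s - ex p F g) ^ 2 + 2 * (f s - g s) ^ 2) := by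
    rw [ex_add, ex_mul_left, ex_mul_left]
    rfl
  rw [h1]
  refine ex_mono hp0.le hp1.le fun s _ => ?_
  nlinarith [sq_nonneg ((f s - g s) - (g s - ex p F g))]

/-- The distance to an average. -/
theorem ex_avg (hp0 : 0 < p) (hp1 : p < 1) (f : Finset α → ℝ) (M : ℕ) (hM : 1 ≤ M)
    (g : ℕ → Finset α → ℝ) (B : ℝ)
    (h : ∀ z < M, ex p F (fun s => (f s - g z s) ^ 2) ≤ B) :
    ex p F (fun s => (f s - (∑ z ∈ Finset.range M, g z s) / M) ^ 2) ≤ B := by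
  have hM0 : (0 : ℝ) < M := by exact_mod_cast hM
  have h1 : ∀ s, (f s - (∑ z ∈ Finset.range M, g z s) / M) ^ 2
      ≤ (∑ z ∈ Finset.range M, (f s - g z s) ^ 2) / M := by
    intro s
    have h2 : f s - (∑ z ∈ Finset.range M, g z s) / M =
        (∑ z ∈ Finset.range M, (f s - g z s)) / M := by
      rw [Finset.sum_sub_distrib, Finset.sum_const, Finset.card_range, nsmul_eq_mul, sub_div,
        mul_div_cancel_left₀ _ hM0.ne']
    have h3 := sq_sum_le_card_mul_sum_sq (s := Finset.range M) (f := fun z => f s - g z s)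
    rw [Finset.card_range] at h3
    rw [h2, div_pow, div_le_div_iff₀ (by positivity) hM0]
    calc (∑ z ∈ Finset.range M, (f s - g z s)) ^ 2 * M
        ≤ (M * ∑ z ∈ Finset.range M, (f s - g z s) ^ 2) * M :=
          mul_le_mul_of_nonneg_right h3 hM0.le
      _ = (∑ z ∈ Finset.range M, (f s - g z s) ^ 2) * (M : ℝ) ^ 2 := by ring
  calc ex p F (fun s => (f s - (∑ z ∈ Finset.range M, g z s) / M) ^ 2)
      ≤ ex p F (fun s => (∑ z ∈ Finset.range M, (f s - g z s) ^ 2) / M) :=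
        ex_mono hp0.le hp1.le fun s _ => h1 s
    _ = (∑ z ∈ Finset.range M, ex p F (fun s => (f s - g z s) ^ 2)) / M := by
        rw [ex_div, ex_finsum]
    _ ≤ B := by
        rw [div_le_iff₀ hM0]
        calc ∑ z ∈ Finset.range M, ex p F (fun s => (f s - g z s) ^ 2)
            ≤ ∑ _z ∈ Finset.range M, B := Finset.sum_le_sum fun z hz => h z (Finset.mem_range.mp hz)
          _ = B * M := by rw [Finset.sum_const, Finset.card_range, nsmul_eq_mul, mul_comm]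

end Prob

theorem eds_mono (R : Rect) (z1 z2 z2' : ℤ) (h : z2 ≤ z2') : eds R z1 z2 ⊆ eds R z1 z2' := by
  intro e he
  simp only [eds, box, Finset.mem_filter, Finset.mem_product, Finset.mem_Ico, Finset.mem_Icc,
    Finset.mem_univ, true_and] at he ⊢
  refine ⟨⟨he.1.1, he.1.2.1, he.1.2.2.1, he.1.2.2.2.trans h⟩,
    ⟨he.2.1, he.2.2.1, he.2.2.2.1, he.2.2.2.2.trans h⟩⟩

section Core

variable {p a b : ℝ}

/-- Crude bound and restriction. -/
theorem crude (hCUT : S_CUT) (hFLT : S_FLT) (hp0 : 0 < p) (hp1 : p < 1) (ha : 0 < a) (hab : a < b)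
    (n H : ℕ) (hH : 1 ≤ H) :
    va p (eds (sq (n + 1) (n + 1)) 0 (H : ℤ)) (flow a b (sq (n + 1) (n + 1)) 0 (H : ℤ))
      ≤ (b * (((n : ℝ) + 1) * ((n : ℝ) + 1))) ^ 2 := by
  have hz : (0 : ℤ) < (H : ℤ) := by omega
  obtain ⟨S0, hS0, hS0c⟩ := hFLT (sq (n + 1) (n + 1)) 0 (H : ℤ) hz
  obtain ⟨-, -, h3, -⟩ := hCUT a b (sq (n + 1) (n + 1)) 0 (H : ℤ) (fun _ => True)
    (((sq (n + 1) (n + 1)).w : ℝ) * (sq (n + 1) (n + 1)).l) ha hab hz ⟨S0, hS0, trivial, hS0c⟩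
  refine (va_le hp0.le hp1.le _ 0).trans ?_
  refine ex_le_const hp0.le hp1.le fun T _ => ?_
  rw [sub_zero]
  have h4 := h3 T
  have h5 : (((sq (n + 1) (n + 1)).w : ℝ) * (sq (n + 1) (n + 1)).l) =
      ((n : ℝ) + 1) * ((n : ℝ) + 1) := by
    simp [sq]
  rw [h5] at h4
  exact pow_le_pow_left₀ h4.1 h4.2 2

theorem restr (hCUT : S_CUT) (hFLT : S_FLT) (ha : 0 < a) (hab : a < b)
    (n H M : ℕ) (hH : 1 ≤ H) :
    va p (eds (sq n n) 0 (H : ℤ)) (flow a b (sq n n) 0 (H : ℤ)) =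
      va p (eds (sq n n) 0 ((H : ℤ) + M)) (flow a b (sq n n) 0 (H : ℤ)) := by
  have hz : (0 : ℤ) < (H : ℤ) := by omega
  obtain ⟨S0, hS0, hS0c⟩ := hFLT (sq n n) 0 (H : ℤ) hz
  obtain ⟨-, -, -, h4, -⟩ := hCUT a b (sq n n) 0 (H : ℤ) (fun _ => True)
    (((sq n n).w : ℝ) * (sq n n).l) ha hab hz ⟨S0, hS0, trivial, hS0c⟩
  have hsub : eds (sq n n) 0 (H : ℤ) ⊆ eds (sq n n) 0 ((H : ℤ) + M) :=
    eds_mono _ _ _ _ (by omega)
  have hf : ∀ T, flow a b (sq n n) 0 (H : ℤ) (T ∩ eds (sq n n) 0 (H : ℤ)) =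
      flow a b (sq n n) 0 (H : ℤ) T := h4
  rw [va_eq, va_eq]
  congr 1
  · refine (ex_restrict hsub fun s _ => ?_).symm
    rw [hf]
  · congr 1
    exact (ex_restrict hsub fun s _ => hf s).symm

/-- The core of the argument. -/
theorem core (hFS : S_FS) (hES : S_ES) (hCL2 : S_CL2) (hENB : S_ENB) (hCUT : S_CUT)
    (hFLT : S_FLT) (hp0 : 0 < p) (hp1 : p < 1) (ha : 0 < a) (hab : a < b) {A η γ : ℝ}
    (hA : 0 < A) (hη : 0 < η) (hγ : 0 < γ) :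
    ∃ C : ℝ, 0 < C ∧ ∀ n H M : ℕ, 2 ≤ n → 1 ≤ H → 1 ≤ M →
      (∀ z < M, ex p (eds (sq (n + 1) (n + 1)) 0 ((H : ℤ) + M))
        (fun T => |flow a b (sq (n + 1) (n + 1)) 0 (H : ℤ) T
          - flow a b (sq (n + 1) (n + 1)) (z : ℤ) ((H : ℤ) + z) T|)
          ≤ A * (n : ℝ) ^ (1 - η / 2)) →
      (∑ e ∈ eds (sq (n + 1) (n + 1)) 0 ((H : ℤ) + M),
        (ex p (eds (sq (n + 1) (n + 1)) 0 ((H : ℤ) + M))
          (fun T => |gr e (fbar a b (n + 1) H M) T|)) ^ 2 ≤ A * (n : ℝ) ^ (2 - γ)) →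
      va p (eds (sq (n + 1) (n + 1)) 0 (H : ℤ)) (flow a b (sq (n + 1) (n + 1)) 0 (H : ℤ))
        ≤ C * ((n : ℝ) ^ 2 / Real.log n) := by
  obtain ⟨C2, hC2, hcl⟩ := hCL2 p a b hp0 hp1 ha hab
  obtain ⟨CE, hCE, hen⟩ := hENB p a b hp0 hp1 ha hab
  set A' : ℝ := max A (4 * CE) with hA'
  set K : ℝ := max 1 (16 * C2 * A ^ 2) with hK
  refine ⟨2 * (4 * A' / γ) + 2 * (3 * K / η), ?_, ?_⟩
  · have : 0 < A' := lt_of_lt_of_le hA (le_max_left _ _)
    have : 0 < K := lt_of_lt_of_le one_pos (le_max_left _ _)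
    positivity
  intro n H M hn hH hM hD hI
  set R := sq (n + 1) (n + 1) with hR
  set F := eds R 0 ((H : ℤ) + M) with hF
  have hx : (2 : ℝ) ≤ n := by exact_mod_cast hn
  have hA'0 : 0 < A' := lt_of_lt_of_le hA (le_max_left _ _)
  have hq0 : 0 ≤ (n : ℝ) ^ 2 / Real.log n := zero_le_one.trans (MAIr.one_le_quot hx)
  -- the variance of the average
  have hV : va p F (fbar a b (n + 1) H M) ≤ 4 * A' / γ * ((n : ℝ) ^ 2 / Real.log n) := by
    rcases le_or_gt (va p F (fbar a b (n + 1) H M)) 0 with h0 | h0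
    · exact h0.trans (mul_nonneg (by positivity) hq0)
    · have hIpos : 0 < ∑ e ∈ F, (ex p F (fun T => |gr e (fbar a b (n + 1) H M) T|)) ^ 2 := by
        by_contra hcon
        exact absurd (va_nonpos hES hp0 hp1 _ (not_lt.mp hcon)) (not_le.mpr h0)
      refine MAIr.fs_bound hx hA'0 hγ h0.le hIpos ?_ ?_
      · exact hI.trans (mul_le_mul_of_nonneg_right (le_max_left _ _)
          (Real.rpow_nonneg (by linarith) _))
      · refine (hFS Ed p hp0 hp1 F (fbar a b (n + 1) H M) h0).trans ?_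
        refine mul_le_mul_of_nonneg_left ?_ zero_le_two
        refine (hen (n + 1) H M (by omega) hH hM).trans ?_
        have h1 : (((n + 1 : ℕ) : ℝ)) ^ 2 ≤ 4 * (n : ℝ) ^ 2 := by
          push_cast
          nlinarith
        calc CE * (((n + 1 : ℕ) : ℝ)) ^ 2 ≤ CE * (4 * (n : ℝ) ^ 2) :=
              mul_le_mul_of_nonneg_left h1 hCE.le
          _ = (4 * CE) * (n : ℝ) ^ 2 := by ring
          _ ≤ A' * (n : ℝ) ^ 2 := mul_le_mul_of_nonneg_right (le_max_right _ _) (sq_nonneg _)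
  -- the closeness
  have hclose : ∀ z < M, ex p F (fun T => (flow a b R 0 (H : ℤ) T
      - flow a b R (z : ℤ) ((H : ℤ) + z) T) ^ 2) ≤ 3 * K / η * ((n : ℝ) ^ 2 / Real.log n) := by
    intro z hz
    have hsub : eds R 0 ((H : ℤ) + z) ⊆ F := eds_mono _ _ _ _ (by omega)
    have h1 := hcl (n + 1) H z (by omega) hH F hsub
    refine MAIr.cube_bound hx (le_max_left _ _) hη
      (ex_nonneg hp0.le hp1.le fun s _ => sq_nonneg _) (h1.trans ?_)
    have h2 : (((n + 1 : ℕ) : ℝ)) ^ 4 ≤ 16 * (n : ℝ) ^ 4 := by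
      calc (((n + 1 : ℕ) : ℝ)) ^ 4 ≤ (2 * (n : ℝ)) ^ 4 :=
            pow_le_pow_left₀ (by positivity) (by push_cast; linarith) 4
        _ = 16 * (n : ℝ) ^ 4 := by ring
    have h3 : (ex p F (fun T => |flow a b R 0 (H : ℤ) T
        - flow a b R (z : ℤ) ((H : ℤ) + z) T|)) ^ 2 ≤ (A * (n : ℝ) ^ (1 - η / 2)) ^ 2 :=
      pow_le_pow_left₀ (ex_nonneg hp0.le hp1.le fun s _ => abs_nonneg _) (hD z hz) 2
    have h4 : (n : ℝ) ^ 4 * ((n : ℝ) ^ (1 - η / 2)) ^ 2 = (n : ℝ) ^ (6 - η) := by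
      rw [← Real.rpow_natCast (n : ℝ) 4, ← Real.rpow_natCast ((n : ℝ) ^ (1 - η / 2)) 2,
        ← Real.rpow_mul (by linarith), ← Real.rpow_add (by linarith)]
      congr 1
      push_cast
      ring
    calc C2 * (((n + 1 : ℕ) : ℝ)) ^ 4 * (ex p F (fun T => |flow a b R 0 (H : ℤ) T
          - flow a b R (z : ℤ) ((H : ℤ) + z) T|)) ^ 2
        ≤ C2 * (16 * (n : ℝ) ^ 4) * (A * (n : ℝ) ^ (1 - η / 2)) ^ 2 := by
          refine mul_le_mul (mul_le_mul_of_nonneg_left h2 hC2.le) h3 (sq_nonneg _) ?_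
          positivity
      _ = (16 * C2 * A ^ 2) * ((n : ℝ) ^ 4 * ((n : ℝ) ^ (1 - η / 2)) ^ 2) := by ring
      _ = (16 * C2 * A ^ 2) * (n : ℝ) ^ (6 - η) := by rw [h4]
      _ ≤ K * (n : ℝ) ^ (6 - η) := mul_le_mul_of_nonneg_right (le_max_right _ _)
          (Real.rpow_nonneg (by linarith) _)
  have hE2 := ex_avg hp0 hp1 (flow a b R 0 (H : ℤ)) M hM
    (fun z T => flow a b R (z : ℤ) ((H : ℤ) + z) T) _ hclose
  rw [restr hCUT hFLT ha hab (n + 1) H M hH]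
  refine (va_split hp0 hp1 _ (fbar a b (n + 1) H M)).trans ?_
  have hE3 : ex p F (fun s => (flow a b R 0 (H : ℤ) s - fbar a b (n + 1) H M s) ^ 2)
      ≤ 3 * K / η * ((n : ℝ) ^ 2 / Real.log n) := hE2
  calc 2 * va p F (fbar a b (n + 1) H M)
        + 2 * ex p F (fun s => (flow a b R 0 (H : ℤ) s - fbar a b (n + 1) H M s) ^ 2)
      ≤ 2 * (4 * A' / γ * ((n : ℝ) ^ 2 / Real.log n))
        + 2 * (3 * K / η * ((n : ℝ) ^ 2 / Real.log n)) := by linarith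
    _ = (2 * (4 * A' / γ) + 2 * (3 * K / η)) * ((n : ℝ) ^ 2 / Real.log n) := by ring

end Core

section Final

/-- Thin cylinders. -/
theorem thin (hCNF : S_CNF) (hCLO : S_CLO) (hINF : S_INF) (hTLM : S_TLM) {p a b ε c : ℝ}
    (hp0 : 0 < p) (hp1 : p < 1) (ha : 0 < a) (hab : a < b) (hε : 3 / 5 < ε) (hc : 0 < c)
    {η : ℝ} (hη : 0 < η) (h1 : 2 - 5 * ε / 3 ≤ 1 - η) (h2 : 4 / 3 - ε ≤ 1 - η)
    (h3 : (1 - ε) / 2 ≤ 1 - η) (hη5 : η ≤ 1 / 5) :
    ∃ A : ℝ, 0 < A ∧ ∃ n0 : ℕ, ∀ n H : ℕ, n0 ≤ n → 2 ≤ n → c * (n : ℝ) ^ ε ≤ H → H ≤ n ^ 8 →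
      1 ≤ H → ∃ M : ℕ, 1 ≤ M ∧
      (∀ z < M, ex p (eds (sq (n + 1) (n + 1)) 0 ((H : ℤ) + M))
        (fun T => |flow a b (sq (n + 1) (n + 1)) 0 (H : ℤ) T
          - flow a b (sq (n + 1) (n + 1)) (z : ℤ) ((H : ℤ) + z) T|)
          ≤ A * (n : ℝ) ^ (1 - η / 2)) ∧
      (∑ e ∈ eds (sq (n + 1) (n + 1)) 0 ((H : ℤ) + M),
        (ex p (eds (sq (n + 1) (n + 1)) 0 ((H : ℤ) + M))
          (fun T => |gr e (fbar a b (n + 1) H M) T|)) ^ 2 ≤ A * (n : ℝ) ^ (2 - η / 48)) := by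
  obtain ⟨CC, hCC, H0, hH0, hcnf⟩ := hCNF p a b hp0 hp1 ha hab
  obtain ⟨CI, hCI, hinf⟩ := hINF p a b hp0 hp1 ha hab
  obtain ⟨CT, hCT, htlm⟩ := hTLM p a b hp0 hp1 ha hab
  set δ : ℝ := η / 4 with hδ
  have hδ0 : 0 < δ := by positivity
  set K : ℝ := Real.sqrt (84 / δ) with hK
  have hK0 : 0 ≤ K := Real.sqrt_nonneg _
  set A1 : ℝ := 8 * CC * K * (4 * c ^ (-(5 : ℝ) / 3) + 4 * c⁻¹ + Real.sqrt (2 / c)) with hA1
  set A2 : ℝ := CI * (4 + 8 * CT * K) with hA2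
  have hA20 : 0 < A2 := by positivity
  -- the conditions for large `n`
  have hev1 : ∀ᶠ x : ℝ in Filter.atTop, 8 / c ≤ x ^ (ε - δ) :=
    (tendsto_rpow_atTop (by linarith)).eventually_ge_atTop _
  have hev2 : ∀ᶠ x : ℝ in Filter.atTop, (H0 : ℝ) / c ≤ x ^ ε :=
    (tendsto_rpow_atTop (by linarith)).eventually_ge_atTop _
  obtain ⟨x0, hx0⟩ := Filter.eventually_atTop.mp (hev1.and hev2)
  refine ⟨max A1 A2, lt_of_lt_of_le hA20 (le_max_right _ _), ⌈x0⌉₊, ?_⟩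
  intro n H hn hn2 hH hH8 hH1
  have hx : (2 : ℝ) ≤ n := by exact_mod_cast hn2
  have hxp : (0 : ℝ) < n := by linarith
  have hx1 : (1 : ℝ) ≤ n := by linarith
  have hxx : x0 ≤ (n : ℝ) := (Nat.le_ceil x0).trans (by exact_mod_cast hn)
  obtain ⟨hc1, hc2⟩ := hx0 _ hxx
  have hHr : (1 : ℝ) ≤ H := by exact_mod_cast hH1
  have hH8r : (H : ℝ) ≤ (n : ℝ) ^ 8 := by exact_mod_cast hH8
  have hcond1 : 8 * (n : ℝ) ^ δ ≤ H := by
    have h4 : (n : ℝ) ^ ε = (n : ℝ) ^ (ε - δ) * (n : ℝ) ^ δ := by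
      rw [← Real.rpow_add hxp]
      congr 1
      ring
    have h5 : 0 ≤ (n : ℝ) ^ δ := Real.rpow_nonneg hxp.le _
    have h6 : 8 ≤ c * (n : ℝ) ^ (ε - δ) := by
      rw [div_le_iff₀ hc] at hc1
      linarith
    calc 8 * (n : ℝ) ^ δ ≤ (c * (n : ℝ) ^ (ε - δ)) * (n : ℝ) ^ δ :=
          mul_le_mul_of_nonneg_right h6 h5
      _ = c * (n : ℝ) ^ ε := by rw [h4]; ring
      _ ≤ H := hH
  have hcond2 : H0 ≤ H := by
    have h4 : (H0 : ℝ) ≤ c * (n : ℝ) ^ ε := by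
      rw [div_le_iff₀ hc] at hc2
      linarith
    exact_mod_cast h4.trans hH
  -- the parameter `Λ`
  obtain ⟨hΛ1, hΛ2⟩ := MAIr.lam_bound (x := (n : ℝ)) (H := (H : ℝ)) (δ := δ) hx hHr hH8r hδ0
  set Λ : ℝ := Real.sqrt (Real.log (2 + 8 * ((n : ℝ) + 1) * H)) with hΛ
  have hΛ0 : 0 ≤ Λ := Real.sqrt_nonneg _
  have hΛsq : Real.log (2 + 8 * ((n : ℝ) + 1) * H) = Λ ^ 2 := by
    rw [hΛ, Real.sq_sqrt]
    refine Real.log_nonneg ?_
    nlinarith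
  have hxd : 1 ≤ (n : ℝ) ^ δ := Real.one_le_rpow hx1 hδ0.le
  have hxd4 : 1 ≤ (n : ℝ) ^ (δ / 4) := Real.one_le_rpow hx1 (by positivity)
  set M : ℕ := ⌈(n : ℝ) ^ δ⌉₊ with hM
  set r : ℕ := ⌊(n : ℝ) ^ (δ / 4)⌋₊ with hr
  have hM1 : 1 ≤ M := Nat.one_le_ceil_iff.mpr (by linarith)
  have hMx : (n : ℝ) ^ δ ≤ M := Nat.le_ceil _
  have hr1 : 1 ≤ r := (Nat.one_le_floor_iff _).mpr hxd4
  have hrx : (r : ℝ) ≤ (n : ℝ) ^ (δ / 4) := Nat.floor_le (by linarith)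
  have hrx2 : (n : ℝ) ^ (δ / 4) / 2 ≤ r := by
    have h4 : (n : ℝ) ^ (δ / 4) < r + 1 := Nat.lt_floor_add_one _
    have h5 : (1 : ℝ) ≤ r := by exact_mod_cast hr1
    linarith
  have hrn : r ≤ n + 1 := by
    have h4 : (r : ℝ) ≤ n := by
      refine hrx.trans ?_
      calc (n : ℝ) ^ (δ / 4) ≤ (n : ℝ) ^ (1 : ℝ) :=
            Real.rpow_le_rpow_of_exponent_le hx1 (by linarith)
        _ = n := Real.rpow_one _
    have h5 : r ≤ n := by exact_mod_cast h4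
    omega
  refine ⟨M, hM1, ?_, ?_⟩
  · intro z hz
    have hzx : (z : ℝ) < (n : ℝ) ^ δ := Nat.lt_ceil.mp hz
    have h8z : 8 * z ≤ H := by
      have h4 : (8 : ℝ) * z ≤ H := by linarith
      exact_mod_cast h4
    have hsub : eds (sq (n + 1) (n + 1)) 0 ((H : ℤ) + z) ⊆
        eds (sq (n + 1) (n + 1)) 0 ((H : ℤ) + M) := eds_mono _ _ _ _ (by omega)
    refine (hCLO p a b (n + 1) H z hp0 hp1 ha hab (by omega) hH1 h8z _ hsub).trans ?_
    have hcn := hcnf (n + 1) H Λ (by omega) hcond2 hΛ1 (by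
      rw [← hΛsq]
      push_cast
      exact le_rfl)
    have h5 := MAIr.close_bound (x := (n : ℝ)) (c := c) (ε := ε) (η := η) (δ := δ) (H := (H : ℝ))
      (z := (z : ℝ)) (CC := CC) (Λ := Λ) (K := K) hx hc h1 h2 h3 (by rw [hδ]; linarith) hH
      (Nat.cast_nonneg z) hzx.le hCC.le hK0 hΛ0 hΛ2
    push_cast at hcn
    refine (mul_le_mul_of_nonneg_left hcn (by positivity)).trans (h5.trans ?_)
    exact mul_le_mul_of_nonneg_right (le_max_left _ _) (Real.rpow_nonneg hxp.le _)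
  · have hE := fun (w l : ℕ) (hw : r ≤ w) (hw2 : w < 2 * r) (hl : r ≤ l) (hl2 : l < 2 * r) =>
      htlm r H Λ hr1 hH1 hΛ1 (by
        rw [← hΛsq]
        refine Real.log_le_log (by positivity) ?_
        have h4 : (r : ℝ) ≤ (n : ℝ) + 1 := by exact_mod_cast hrn
        have h5 : 8 * (r : ℝ) * H ≤ 8 * ((n : ℝ) + 1) * H :=
          mul_le_mul_of_nonneg_right (by linarith) (by linarith)
        linarith) w l hw hw2 hl hl2
    have hEr : 0 ≤ CT * (r : ℝ) ^ ((4 : ℝ) / 3) * Λ := by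
      have := Real.rpow_nonneg (Nat.cast_nonneg r : (0 : ℝ) ≤ r) ((4 : ℝ) / 3)
      positivity
    have h4 := hinf (n + 1) H M r (CT * (r : ℝ) ^ ((4 : ℝ) / 3) * Λ) hr1 hrn hH1 hM1 hEr hE
    refine h4.trans ?_
    have h5 := MAIr.infl_bound (x := (n : ℝ)) (δ := δ) (r := (r : ℝ)) (M := (M : ℝ)) (CT := CT)
      (Λ := Λ) (K := K) hx hδ0 hrx hrx2 hMx hCT.le hK0 hΛ0 hΛ2
    push_cast
    calc CI * (((n : ℝ) + 1) ^ 2 * (r : ℝ) ^ 2 / M
          + ((n : ℝ) + 1) ^ 2 * (CT * (r : ℝ) ^ ((4 : ℝ) / 3) * Λ) / (r : ℝ) ^ 2)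
        ≤ CI * ((4 + 8 * CT * K) * (n : ℝ) ^ (2 - δ / 12)) :=
          mul_le_mul_of_nonneg_left h5 hCI.le
      _ = A2 * (n : ℝ) ^ (2 - η / 48) := by
          rw [hA2, hδ, show η / 4 / 12 = η / 48 by ring]
          ring
      _ ≤ max A1 A2 * (n : ℝ) ^ (2 - η / 48) :=
          mul_le_mul_of_nonneg_right (le_max_right _ _) (Real.rpow_nonneg hxp.le _)

/-- Thick cylinders. -/
theorem thick (hCVX : S_CVX) (hCLO : S_CLO) (hIN2 : S_IN2) {p a b : ℝ}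
    (hp0 : 0 < p) (hp1 : p < 1) (ha : 0 < a) (hab : a < b)
    {η : ℝ} (hη : 0 < η) (hη5 : η ≤ 1 / 5) :
    ∃ A : ℝ, 0 < A ∧ ∀ n H : ℕ, 2 ≤ n → n ^ 8 < H → ∃ M : ℕ, 1 ≤ M ∧
      (∀ z < M, ex p (eds (sq (n + 1) (n + 1)) 0 ((H : ℤ) + M))
        (fun T => |flow a b (sq (n + 1) (n + 1)) 0 (H : ℤ) T
          - flow a b (sq (n + 1) (n + 1)) (z : ℤ) ((H : ℤ) + z) T|)
          ≤ A * (n : ℝ) ^ (1 - η / 2)) ∧
      (∑ e ∈ eds (sq (n + 1) (n + 1)) 0 ((H : ℤ) + M),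
        (ex p (eds (sq (n + 1) (n + 1)) 0 ((H : ℤ) + M))
          (fun T => |gr e (fbar a b (n + 1) H M) T|)) ^ 2 ≤ A * (n : ℝ) ^ (2 - η / 48)) := by
  obtain ⟨CI, hCI, hin2⟩ := hIN2 p a b hp0 hp1 ha hab
  have hb : 0 < b := ha.trans hab
  refine ⟨max (32 * b) (16 * CI), lt_of_lt_of_le (by positivity) (le_max_left _ _), ?_⟩
  intro n H hn2 hH
  have hx : (2 : ℝ) ≤ n := by exact_mod_cast hn2
  have hxp : (0 : ℝ) < n := by linarith
  have hx1 : (1 : ℝ) ≤ n := by linarith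
  have hHr : (n : ℝ) ^ 8 < H := by exact_mod_cast hH
  have hn4 : 16 ≤ n ^ 4 := by
    calc 16 = 2 ^ 4 := by norm_num
      _ ≤ n ^ 4 := Nat.pow_le_pow_left hn2 4
  have hn8 : 16 * n ^ 4 ≤ n ^ 8 := by
    calc 16 * n ^ 4 ≤ n ^ 4 * n ^ 4 := Nat.mul_le_mul_right _ hn4
      _ = n ^ 8 := by ring
  have hH1 : 1 ≤ H := by omega
  have hH0 : (0 : ℝ) < H := by exact_mod_cast (show 0 < H by omega)
  have hNsq : ((n : ℝ) + 1) ^ 2 ≤ 4 * (n : ℝ) ^ 2 := by nlinarith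
  refine ⟨n ^ 4, by omega, ?_, ?_⟩
  · intro z hz
    have h8z : 8 * z ≤ H := by omega
    have hsub : eds (sq (n + 1) (n + 1)) 0 ((H : ℤ) + z) ⊆
        eds (sq (n + 1) (n + 1)) 0 ((H : ℤ) + (n ^ 4 : ℕ)) := eds_mono _ _ _ _ (by omega)
    refine (hCLO p a b (n + 1) H z hp0 hp1 ha hab (by omega) hH1 h8z _ hsub).trans ?_
    obtain ⟨-, -, h3⟩ := hCVX p a b (n + 1) (n + 1) hp0 hp1 ha hab
    have h4 := (h3 (H / 2) (by omega)).2
    have h5 := (h3 H hH1).1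
    push_cast at h4
    have h6 : ph p a b (n + 1) (n + 1) (H / 2) - ph p a b (n + 1) (n + 1) H
        ≤ b * (4 * (n : ℝ) ^ 2) := by
      have h7 : b * (((n : ℝ) + 1) * ((n : ℝ) + 1)) ≤ b * (4 * (n : ℝ) ^ 2) :=
        mul_le_mul_of_nonneg_left (by nlinarith) hb.le
      linarith
    have hzr : (z : ℝ) ≤ (n : ℝ) ^ 4 := by exact_mod_cast hz.le
    have h7 : 8 * (z : ℝ) / H ≤ 8 / (n : ℝ) ^ 4 := by
      rw [div_le_div_iff₀ hH0 (by positivity)]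
      calc 8 * (z : ℝ) * (n : ℝ) ^ 4 ≤ 8 * (n : ℝ) ^ 4 * (n : ℝ) ^ 4 :=
            mul_le_mul_of_nonneg_right (by linarith) (by positivity)
        _ = 8 * (n : ℝ) ^ 8 := by ring
        _ ≤ 8 * H := by linarith
    have h8 : (1 : ℝ) ≤ (n : ℝ) ^ (1 - η / 2) := Real.one_le_rpow hx1 (by linarith)
    calc 8 * (z : ℝ) / H * (ph p a b (n + 1) (n + 1) (H / 2) - ph p a b (n + 1) (n + 1) H)
        ≤ 8 * (z : ℝ) / H * (b * (4 * (n : ℝ) ^ 2)) :=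
          mul_le_mul_of_nonneg_left h6 (by positivity)
      _ ≤ 8 / (n : ℝ) ^ 4 * (b * (4 * (n : ℝ) ^ 2)) :=
          mul_le_mul_of_nonneg_right h7 (by positivity)
      _ = 32 * b * (1 / (n : ℝ) ^ 2) := by
          field_simp
          ring
      _ ≤ 32 * b * 1 := by
          refine mul_le_mul_of_nonneg_left ?_ (by positivity)
          rw [div_le_one (by positivity)]
          exact one_le_pow₀ hx1
      _ ≤ 32 * b * (n : ℝ) ^ (1 - η / 2) := mul_le_mul_of_nonneg_left h8 (by positivity)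
      _ ≤ max (32 * b) (16 * CI) * (n : ℝ) ^ (1 - η / 2) :=
          mul_le_mul_of_nonneg_right (le_max_left _ _) (by linarith)
  · refine (hin2 (n + 1) H (n ^ 4) (by omega) hH1 (by omega)).trans ?_
    have h4 : (((n + 1 : ℕ) : ℝ)) ^ 4 ≤ 16 * (n : ℝ) ^ 4 := by
      calc (((n + 1 : ℕ) : ℝ)) ^ 4 ≤ (2 * (n : ℝ)) ^ 4 :=
            pow_le_pow_left₀ (by positivity) (by push_cast; linarith) 4
        _ = 16 * (n : ℝ) ^ 4 := by ring
    have h5 : (1 : ℝ) ≤ (n : ℝ) ^ (2 - η / 48) := Real.one_le_rpow hx1 (by linarith)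
    calc CI * (((n + 1 : ℕ) : ℝ)) ^ 4 / ((n ^ 4 : ℕ) : ℝ)
        ≤ CI * (16 * (n : ℝ) ^ 4) / ((n ^ 4 : ℕ) : ℝ) := by
          refine div_le_div_of_nonneg_right (mul_le_mul_of_nonneg_left h4 hCI.le) ?_
          positivity
      _ = 16 * CI := by
          push_cast
          field_simp
      _ = 16 * CI * 1 := (mul_one _).symm
      _ ≤ 16 * CI * (n : ℝ) ^ (2 - η / 48) := mul_le_mul_of_nonneg_left h5 (by positivity)
      _ ≤ max (32 * b) (16 * CI) * (n : ℝ) ^ (2 - η / 48) :=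
          mul_le_mul_of_nonneg_right (le_max_right _ _) (by linarith)

end Final

end MAIa

/-- MAI: the assembly. -/
theorem mai_thm (hFS : S_FS) (hES : S_ES) (hCNF : S_CNF) (hCLO : S_CLO) (hCL2 : S_CL2)
    (hENB : S_ENB) (hINF : S_INF) (hIN2 : S_IN2) (hTLM : S_TLM) (hCUT : S_CUT) (hFLT : S_FLT)
    (hCVX : S_CVX) : S_MAI := by
  intro p a b ε c hp0 hp1 ha hab hε hc
  obtain ⟨η, hη, h1, h2, h3, hη5⟩ : ∃ η : ℝ, 0 < η ∧ 2 - 5 * ε / 3 ≤ 1 - η ∧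
      4 / 3 - ε ≤ 1 - η ∧ (1 - ε) / 2 ≤ 1 - η ∧ η ≤ 1 / 5 := by
    refine ⟨min (5 * ε / 3 - 1) (1 / 5), lt_min (by linarith) (by norm_num), ?_, ?_, ?_,
      min_le_right _ _⟩
    · have := min_le_left (5 * ε / 3 - 1) (1 / 5)
      linarith
    · have := min_le_right (5 * ε / 3 - 1) (1 / 5)
      linarith
    · have := min_le_right (5 * ε / 3 - 1) (1 / 5)
      linarith
  obtain ⟨A1, hA1, n0, hthin⟩ := MAIa.thin hCNF hCLO hINF hTLM hp0 hp1 ha hab hε hc hη h1 h2 h3 hη5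
  obtain ⟨A2, hA2, hthick⟩ := MAIa.thick hCVX hCLO hIN2 hp0 hp1 ha hab hη hη5
  have hA : 0 < max A1 A2 := lt_of_lt_of_le hA1 (le_max_left _ _)
  obtain ⟨C, hC, hcore⟩ := MAIa.core hFS hES hCL2 hENB hCUT hFLT hp0 hp1 ha hab hA hη
    (show 0 < η / 48 by positivity)
  have hb : 0 < b := ha.trans hab
  set C0 : ℝ := (b * (((n0 : ℝ) + 1) * ((n0 : ℝ) + 1))) ^ 2 with hC0
  refine ⟨max C C0, fun n H hn hH => ?_⟩
  have hx : (2 : ℝ) ≤ n := by exact_mod_cast hn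
  have hxp : (0 : ℝ) < n := by linarith
  have hq : 1 ≤ (n : ℝ) ^ 2 / Real.log n := MAIr.one_le_quot hx
  have hH1 : 1 ≤ H := by
    have h4 : 0 < (H : ℝ) := lt_of_lt_of_le (mul_pos hc (Real.rpow_pos_of_pos hxp _)) hH
    exact_mod_cast h4
  rcases lt_or_ge n n0 with hnn | hnn
  · -- small `n`
    refine (MAIa.crude hCUT hFLT hp0 hp1 ha hab n H hH1).trans ?_
    have h4 : (b * (((n : ℝ) + 1) * ((n : ℝ) + 1))) ^ 2 ≤ C0 := by
      have h5 : (n : ℝ) ≤ n0 := by exact_mod_cast hnn.le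
      rw [hC0]
      gcongr
    calc (b * (((n : ℝ) + 1) * ((n : ℝ) + 1))) ^ 2 ≤ C0 := h4
      _ ≤ max C C0 := le_max_right _ _
      _ = max C C0 * 1 := (mul_one _).symm
      _ ≤ max C C0 * ((n : ℝ) ^ 2 / Real.log n) :=
          mul_le_mul_of_nonneg_left hq (hC.le.trans (le_max_left _ _))
  · have hkey : ∃ M : ℕ, 1 ≤ M ∧
      (∀ z < M, ex p (eds (sq (n + 1) (n + 1)) 0 ((H : ℤ) + M))
        (fun T => |flow a b (sq (n + 1) (n + 1)) 0 (H : ℤ) T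
          - flow a b (sq (n + 1) (n + 1)) (z : ℤ) ((H : ℤ) + z) T|)
          ≤ max A1 A2 * (n : ℝ) ^ (1 - η / 2)) ∧
      (∑ e ∈ eds (sq (n + 1) (n + 1)) 0 ((H : ℤ) + M),
        (ex p (eds (sq (n + 1) (n + 1)) 0 ((H : ℤ) + M))
          (fun T => |gr e (fbar a b (n + 1) H M) T|)) ^ 2
            ≤ max A1 A2 * (n : ℝ) ^ (2 - η / 48)) := by
      rcases le_or_gt H (n ^ 8) with h8 | h8
      · obtain ⟨M, hM, h5, h6⟩ := hthin n H hnn hn hH h8 hH1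
        refine ⟨M, hM, fun z hz => (h5 z hz).trans ?_, h6.trans ?_⟩
        · exact mul_le_mul_of_nonneg_right (le_max_left _ _) (Real.rpow_nonneg hxp.le _)
        · exact mul_le_mul_of_nonneg_right (le_max_left _ _) (Real.rpow_nonneg hxp.le _)
      · obtain ⟨M, hM, h5, h6⟩ := hthick n H hn h8
        refine ⟨M, hM, fun z hz => (h5 z hz).trans ?_, h6.trans ?_⟩
        · exact mul_le_mul_of_nonneg_right (le_max_right _ _) (Real.rpow_nonneg hxp.le _)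
        · exact mul_le_mul_of_nonneg_right (le_max_right _ _) (Real.rpow_nonneg hxp.le _)
    obtain ⟨M, hM, h5, h6⟩ := hkey
    refine (hcore n H M hn hH1 hM h5 h6).trans ?_
    exact mul_le_mul_of_nonneg_right (le_max_left _ _) (by linarith)

end Pool.SC
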